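import Pool.Agent.Y997.NW.Stm

/-!
# Project NW, job NW-OFF: the terms which tend to zero
-/

set_option autoImplicit false

open MeasureTheory Set Topology Filter

namespace Pool.Agent.Y903.NW

open Pool.Agent.W581.Cyc Pool.Agent.Y997.NW

theorem ell_pt (j : Fin 3) (b c t : ℝ) (a v : C2) :
    (ell (pt j b c t + a - v)).re = (ell (a - v)).re + (![0, 1, -1] j : ℝ) * t := by
  unfold ell pt
  fin_cases j
  · simp [dir, im2]
    ring
  · simp [dir, im2]
    ring
  · simp [dir, im2]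
    ring

theorem cs_pt (j : Fin 3) (b c t : ℝ) (a v : C2) : cs v (pt j b c t + a) =
    Real.cos (Real.pi * ((ell (a - v)).re + (![0, 1, -1] j : ℝ) * t)) ^ 2 := by
  unfold cs
  rw [ell_pt]

theorem ev_thin (a v p : C2) (δ : ℝ) (n : ℕ) (z e : C2) :
    ev (shift a (thinForm v p δ n)).1 z e = thin v p δ n (z + a) * ‖e‖ ^ 2 := by
  show (thin v p δ n (z + a) • kahler) ![e, Complex.I • e] = _
  rw [ContinuousAlternatingMap.smul_apply, kahler_apply, smul_eq_mul]

theorem I3_le {F : ℝ → ℝ → ℝ → ℝ} (hF : C3 F) {G : ℝ → ℝ} (hG : Continuous G)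
    (h : ∀ a b t, F a b t ≤ G t) : I3 F ≤ ∫ t in (0 : ℝ)..1, G t := by
  have hG3 : C3 fun _ _ t => G t := hG.comp continuous_snd
  have hH : C3 fun a b t => G t - F a b t := Continuous.sub hG3 hF
  have h1 := I3_add hF hH
  have h2 : I3 (fun a b t => F a b t + (G t - F a b t)) = ∫ t in (0 : ℝ)..1, G t := by
    unfold I3
    simp
  have h3 : 0 ≤ I3 fun a b t => G t - F a b t :=
    I3_nonneg fun a b t => sub_nonneg.2 (h a b t)
  rw [h2] at h1
  linarith

theorem lim_of {q : ℝ → ℝ} (hq : Continuous q) (h0 : ∀ t, 0 ≤ q t) (h1 : ∀ t, q t ≤ 1)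
    (hc : {t | q t = 1}.Countable) :
    Tendsto (fun n : ℕ => ∫ t in (0 : ℝ)..1, 5 * q t ^ n) atTop (𝓝 0) := by
  have h2 : Tendsto (fun n : ℕ => ∫ t in (0 : ℝ)..1, 5 * q t ^ n) atTop
      (𝓝 (∫ _t in (0 : ℝ)..1, (0 : ℝ))) := by
    refine intervalIntegral.tendsto_integral_filter_of_dominated_convergence (fun _ => 5) ?_ ?_ ?_ ?_
    · exact Eventually.of_forall fun n =>
        (continuous_const.mul (hq.pow n)).aestronglyMeasurable
    · refine Eventually.of_forall fun n => Eventually.of_forall fun t _ => ?_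
      rw [Real.norm_of_nonneg (mul_nonneg (by norm_num) (pow_nonneg (h0 t) n))]
      have := pow_le_one₀ (n := n) (h0 t) (h1 t)
      linarith
    · exact intervalIntegrable_const
    · filter_upwards [hc.ae_notMem volume] with t ht _
      have h3 : q t < 1 := lt_of_le_of_ne (h1 t) ht
      have h4 := (tendsto_pow_atTop_nhds_zero_of_lt_one (h0 t) h3).const_mul 5
      rwa [mul_zero] at h4
  simpa using h2

theorem cnt (x σ : ℝ) (h : σ = 1 ∨ σ = -1 ∨ (σ = 0 ∧ ∀ m : ℤ, x ≠ m)) :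
    {t : ℝ | Real.cos (Real.pi * (x + σ * t)) ^ 2 = 1}.Countable := by
  have key : ∀ y : ℝ, Real.cos (Real.pi * y) ^ 2 = 1 → ∃ m : ℤ, y = m := by
    intro y hy
    have h1 : Real.sin (Real.pi * y) ^ 2 = 0 := by
      have := Real.sin_sq_add_cos_sq (Real.pi * y)
      linarith
    obtain ⟨m, hm⟩ := Real.sin_eq_zero_iff.1 (pow_eq_zero_iff (two_ne_zero) |>.1 h1)
    refine ⟨m, ?_⟩
    have h2 : Real.pi * y = Real.pi * m := by rw [← hm]; ring
    exact mul_left_cancel₀ Real.pi_ne_zero h2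
  refine (Set.countable_range fun m : ℤ => σ * ((m : ℝ) - x)).mono ?_
  intro t ht
  obtain ⟨m, hm⟩ := key _ ht
  refine ⟨m, ?_⟩
  show σ * ((m : ℝ) - x) = t
  rcases h with rfl | rfl | ⟨rfl, h⟩
  · rw [← hm]; ring
  · rw [← hm]; ring
  · exfalso
    apply h m
    rw [← hm]
    ring

theorem term (a v p : C2) (δ : ℝ) (j : Fin 3)
    (h : (![0, 1, -1] j : ℝ) = 1 ∨ (![0, 1, -1] j : ℝ) = -1 ∨
      ((![0, 1, -1] j : ℝ) = 0 ∧ ∀ m : ℤ, (ell (a - v)).re ≠ m)) :
    Tendsto (fun n => I3 fun b c t => ev (shift a (thinForm v p δ n)).1 (pt j b c t) (dir j))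
      atTop (𝓝 0) := by
  have hq : Continuous fun t : ℝ =>
      Real.cos (Real.pi * ((ell (a - v)).re + (![0, 1, -1] j : ℝ) * t)) ^ 2 := by fun_prop
  have hlim := lim_of hq (fun t => sq_nonneg _) (fun t => Real.cos_sq_le_one _) (cnt _ _ h)
  refine squeeze_zero (fun n => ?_) (fun n => ?_) hlim
  · refine I3_nonneg fun b c t => ?_
    rw [ev_thin]
    unfold thin
    refine mul_nonneg (mul_nonneg (bump_nonneg _ _ _) (pow_nonneg ?_ _)) (sq_nonneg _)
    rw [cs_pt]
    exact sq_nonneg _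
  · refine I3_le (C3_ev (formCont _) j) (continuous_const.mul (hq.pow n)) fun b c t => ?_
    rw [ev_thin]
    unfold thin
    rw [cs_pt]
    have h1 := bump_le_one p δ (pt j b c t + a)
    have h2 := bump_nonneg p δ (pt j b c t + a)
    have h3 := (norm_dir_sq j).1
    have h4 : 0 ≤ (Real.cos (Real.pi * ((ell (a - v)).re + (![0, 1, -1] j : ℝ) * t)) ^ 2) ^ n :=
      pow_nonneg (sq_nonneg _) _
    calc bump p δ (pt j b c t + a) *
          (Real.cos (Real.pi * ((ell (a - v)).re + (![0, 1, -1] j : ℝ) * t)) ^ 2) ^ n *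
          ‖dir j‖ ^ 2
        ≤ 1 * (Real.cos (Real.pi * ((ell (a - v)).re + (![0, 1, -1] j : ℝ) * t)) ^ 2) ^ n * 5 :=
          mul_le_mul (mul_le_mul_of_nonneg_right h1 h4) h3 (sq_nonneg _) (by linarith)
      _ = 5 * (Real.cos (Real.pi * ((ell (a - v)).re + (![0, 1, -1] j : ℝ) * t)) ^ 2) ^ n := by
          ring

/-- **NW-OFF** -/
theorem t_OFF : S_OFF := by
  intro a v p δ hx
  have h : Tendsto (fun n => ∑ j, I3 fun b c t =>
      ev (shift a (thinForm v p δ n)).1 (pt j b c t) (dir j)) atTop (𝓝 (∑ _j : Fin 3, (0 : ℝ))) := by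
    refine tendsto_finsetSum _ fun j _ => term a v p δ j ?_
    fin_cases j
    · exact Or.inr (Or.inr ⟨rfl, hx⟩)
    · exact Or.inl rfl
    · exact Or.inr (Or.inl rfl)
  rw [Finset.sum_const_zero] at h
  exact h

/-- **NW-ON0** -/
theorem t_ON0 : S_ON0 := by
  intro a v p δ hx
  have h : Tendsto (fun n => ∑ j, I3 fun b c t =>
      ev (shift a (thinForm v p δ n)).1 (pt j b c t) (dir j)) atTop (𝓝 (∑ _j : Fin 3, (0 : ℝ))) := by
    refine tendsto_finsetSum _ fun j _ => ?_
    by_cases hj : j = 0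
    · subst hj
      have h0 : ∀ n, (I3 fun b c t => ev (shift a (thinForm v p δ n)).1 (pt 0 b c t) (dir 0)) =
          0 := by
        intro n
        refine I3_eq_zero fun b c t ht => ?_
        rw [ev_thin]
        unfold thin
        rw [(bump_eq_zero_iff p δ _).2 (hx b c t ht), zero_mul, zero_mul]
      simp only [h0]
      exact tendsto_const_nhds
    · refine term a v p δ j ?_
      fin_cases j
      · exact absurd rfl hj
      · exact Or.inl rfl
      · exact Or.inr (Or.inl rfl)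
  rw [Finset.sum_const_zero] at h
  exact h

end Pool.Agent.Y903.NW
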